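import Pool.Agent.Run7.h860.Hd.Opt

set_option autoImplicit false

open Polynomial Finset
open Pool.Agent.Helper259.AbsHt Pool.Agent.Helper259.HtPoly

namespace Run7.h887.Hd

open Pool.Agent.Run7.h860.Hd

theorem t_HI : S_HI := by
  intro n c hc
  obtain ⟨i, -, hi⟩ := Finset.exists_max_image (Finset.univ : Finset (Fin (n + 1)))
    (fun i => |c i|) Finset.univ_nonempty
  have hci : c i ≠ 0 := by
    intro h0
    apply hc
    funext j
    have h1 := hi j (Finset.mem_univ j)
    simp only [h0, abs_zero] at h1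
    exact abs_eq_zero.1 (le_antisymm h1 (abs_nonneg _))
  refine ⟨i, hci, ?_⟩
  obtain ⟨w, hw, hw1⟩ := Finset.extract_gcd c (Finset.univ_nonempty (α := Fin (n + 1)))
  set g : ℤ := Finset.univ.gcd c with hgdef
  have hg : g ≠ 0 := by
    intro h
    exact hci (Finset.gcd_eq_zero_iff.1 h i (Finset.mem_univ i))
  have hxw : ∀ j, c j = g * w j := fun j => hw j (Finset.mem_univ j)
  have h1 : (fun j => ((c j : ℤ) : Qbar)) = (g : Qbar) • fun j => (w j : Qbar) := by
    funext j
    rw [Pi.smul_apply, smul_eq_mul, hxw j]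
    push_cast
    rfl
  rw [h1, absLogHeight_smul _ (by exact_mod_cast hg), absLogHeight_int w hw1]
  have hle : ∀ j, |w j| ≤ |c i| := by
    intro j
    refine le_trans ?_ (hi j (Finset.mem_univ j))
    show |w j| ≤ |c j|
    rw [hxw j, abs_mul]
    have : 1 ≤ |g| := Int.one_le_abs hg
    nlinarith [abs_nonneg (w j)]
  have hsup : (⨆ j, |w j| : ℤ) ≤ |c i| := ciSup_le hle
  have hpos : (0 : ℤ) < ⨆ j, |w j| := by
    have hwi : w i ≠ 0 := by
      intro h
      apply hci
      rw [hxw i, h, mul_zero]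
    have h2 : |w i| ≤ ⨆ j, |w j| := le_ciSup (Set.finite_range fun j => |w j|).bddAbove i
    exact lt_of_lt_of_le (abs_pos.2 hwi) h2
  refine Real.log_le_log (by exact_mod_cast hpos) ?_
  have : (((⨆ j, |w j| : ℤ)) : ℝ) ≤ ((|c i| : ℤ) : ℝ) := by exact_mod_cast hsup
  simpa using this

end Run7.h887.Hd
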